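import Mathlib

/-!
# Deformations of the Riemann hierarchy with trivial quasi-linear part

For every `c : ℂ` the flows `u_{t_d} = u_x (u + c ε u_x)^d / d!` form a deformation of the Riemann
hierarchy all of whose coefficients `b_k`, `k ≥ 2`, vanish, and two of them are Miura equivalent
only for equal values of `c`.
-/

namespace Pool.Agent.Results.MP_4b14b2_mp.ContactDeformation

open MvPolynomial

/-- Coefficient functions: formal power series in `u`. -/
abbrev K : Type := PowerSeries ℂ

/-- Differential polynomials `ℂ[[u]][u_1, u_2, …]`; the variable `X i` is `u_{i+1}`. -/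
abbrev A : Type := MvPolynomial ℕ K

/-- Formal power series in `ε` with coefficients in the differential polynomials. -/
abbrev AE : Type := PowerSeries A

/-- The partial derivative `∂/∂u`, acting on the coefficient functions. -/
noncomputable def du (p : A) : A :=
  ∑ m ∈ p.support, monomial m (PowerSeries.derivative ℂ (coeff m p))

/-- The total derivative `∂_x = u_1 ∂/∂u + ∑_{i ≥ 1} u_{i+1} ∂/∂u_i`. -/
noncomputable def Dx (p : A) : A :=
  du p * X 0 + ∑ i ∈ p.vars, pderiv i p * X (i + 1)

/-- The evolutionary derivative of `p` along `u_t = q`, that is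
`∑_{i ≥ 0} (∂p/∂u_i) ∂_x^i q`. -/
noncomputable def ev (q p : A) : A :=
  du p * q + ∑ i ∈ p.vars, pderiv i p * Dx^[i + 1] q

/-- The evolutionary derivative of `P` along `u_t = Q` for formal series in `ε`. -/
noncomputable def evol (Q P : AE) : AE :=
  PowerSeries.mk fun n => ∑ x ∈ Finset.HasAntidiagonal.antidiagonal n,
    ev (PowerSeries.coeff x.1 Q) (PowerSeries.coeff x.2 P)

/-- Elements of degree `d` for `deg u_i = i`, `deg ε = -1`: the coefficient of `ε^k` is
homogeneous of differential degree `k + d`. -/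
def HasDegree (d : ℕ) (P : AE) : Prop :=
  ∀ k, IsWeightedHomogeneous (fun i : ℕ => i + 1) (PowerSeries.coeff k P) (k + d)

/-- A deformation of the Riemann hierarchy: pairwise commuting flows `u_{t_d} = Q_d` of degree `1`
with `Q_d = u^d / d! u_x + O(ε)`. -/
structure IsDeformation (Q : ℕ → AE) : Prop where
  degree : ∀ d, HasDegree 1 (Q d)
  leading : ∀ d, PowerSeries.coeff 0 (Q d)
    = C (PowerSeries.C ((d.factorial : ℂ)⁻¹) * PowerSeries.X ^ d) * X 0
  commute : ∀ d e, evol (Q d) (Q e) = evol (Q e) (Q d)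

/-- The coefficient `b_k(u)` of `ε^{k-1} u_k` in `Q_1`, for `k ≥ 1`. -/
noncomputable def b (Q : ℕ → AE) (k : ℕ) : K :=
  coeff (Finsupp.single (k - 1) 1) (PowerSeries.coeff (k - 1) (Q 1))

/-- A Miura transformation `v = u + ∑_{k ≥ 1} ε^k f_k`, with `f_k` homogeneous of differential
degree `k`. -/
structure IsMiura (v : AE) : Prop where
  degree : HasDegree 0 v
  leading : PowerSeries.coeff 0 v = C PowerSeries.X

/-- `f(v) = ∑_j f^{(j)}(u) (v - u)^j / j!`, for `v = u + O(ε)`. -/
noncomputable def taylor (v : AE) (f : K) : AE :=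
  PowerSeries.mk fun n => ∑ j ∈ Finset.range (n + 1),
    C (PowerSeries.C ((j.factorial : ℂ)⁻¹) * (PowerSeries.derivative ℂ)^[j] f) *
      PowerSeries.coeff n ((v - PowerSeries.C (C PowerSeries.X)) ^ j)

/-- The total `x`-derivative on formal series in `ε`. -/
noncomputable def DxE (P : AE) : AE := PowerSeries.mk fun n => Dx (PowerSeries.coeff n P)

/-- The result of substituting `v` for `u` and `∂_x^i v` for `u_i` in a differential polynomial. -/
noncomputable def substA (v : AE) (p : A) : AE :=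
  ∑ m ∈ p.support, taylor v (coeff m p) * ∏ i ∈ m.support, (DxE^[i + 1] v) ^ m i

/-- The result of substituting `v` for `u` and `∂_x^i v` for `u_i` in a formal series in `ε`. -/
noncomputable def subst (v R : AE) : AE :=
  PowerSeries.mk fun n => ∑ x ∈ Finset.HasAntidiagonal.antidiagonal n,
    PowerSeries.coeff x.2 (substA v (PowerSeries.coeff x.1 R))

/-- The Miura transformation `v` carries the flows `u_{t_d} = Q_d` to `v_{t_d} = Q'_d(v, v_x, …)`. -/
def Carries (v : AE) (Q Q' : ℕ → AE) : Prop :=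
  IsMiura v ∧ ∀ d, evol (Q d) v = subst v (Q' d)

/-- Miura equivalence: one of the two is carried to the other by a Miura transformation. -/
def MiuraEquivalent (Q Q' : ℕ → AE) : Prop :=
  (∃ v, Carries v Q Q') ∨ ∃ v, Carries v Q' Q

/-- The flows `u_{t_d} = u_x (u + c ε u_x)^d / d!`. The coefficient of `ε^k` is
`c^k u^{d-k} u_1^{k+1} / (k! (d-k)!)`. -/
noncomputable def flow (c : ℂ) (d : ℕ) : AE :=
  PowerSeries.C (C (PowerSeries.C ((d.factorial : ℂ)⁻¹)) * X 0) *
    (PowerSeries.C (C PowerSeries.X) + PowerSeries.C (C (PowerSeries.C c) * X 0) * PowerSeries.X) ^ d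

/-! ### Calculus -/

lemma du_eq_sum (p : A) (s : Finset (ℕ →₀ ℕ)) (hs : p.support ⊆ s) :
    du p = ∑ m ∈ s, monomial m (PowerSeries.derivative ℂ (coeff m p)) := by
  refine Finset.sum_subset hs fun m _ hm => ?_
  rw [notMem_support_iff.1 hm, map_zero, monomial_zero]

lemma du_add (p q : A) : du (p + q) = du p + du q := by
  classical
  rw [du_eq_sum (p + q) (p.support ∪ q.support) support_add,
    du_eq_sum p (p.support ∪ q.support) Finset.subset_union_left,
    du_eq_sum q (p.support ∪ q.support) Finset.subset_union_right, ← Finset.sum_add_distrib]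
  refine Finset.sum_congr rfl fun m _ => ?_
  rw [coeff_add, map_add, map_add]

lemma du_zero : du 0 = 0 := by simp [du]

lemma du_monomial (m : ℕ →₀ ℕ) (a : K) :
    du (monomial m a) = monomial m (PowerSeries.derivative ℂ a) := by
  rw [du_eq_sum _ {m} support_monomial_subset, Finset.sum_singleton, coeff_monomial, if_pos rfl]

lemma C_mul_X_pow (a : K) (n : ℕ) : (C a * X 0 ^ n : A) = monomial (Finsupp.single 0 n) a := by
  rw [C_mul_X_pow_eq_monomial]

lemma du_CX (a : K) (n : ℕ) : du (C a * X 0 ^ n) = C (PowerSeries.derivative ℂ a) * X 0 ^ n := by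
  rw [C_mul_X_pow, du_monomial, ← C_mul_X_pow]

lemma sum_vars (p : A) (F : ℕ → A) (s : Finset ℕ) (hs : p.vars ⊆ s) :
    ∑ i ∈ p.vars, pderiv i p * F i = ∑ i ∈ s, pderiv i p * F i := by
  refine Finset.sum_subset hs fun i _ hi => ?_
  rw [pderiv_eq_zero_of_notMem_vars hi, zero_mul]

lemma vars_CX (a : K) (n : ℕ) : (C a * X 0 ^ n : A).vars ⊆ {0} := by
  classical
  refine (vars_mul _ _).trans ?_
  rw [vars_C, Finset.empty_union]
  exact (vars_pow _ _).trans (by rw [vars_X])

lemma pderiv_CX (a : K) (n : ℕ) :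
    pderiv 0 (C a * X 0 ^ n : A) = C ((n : K) * a) * X 0 ^ (n - 1) := by
  rw [Derivation.leibniz, pderiv_C, Derivation.leibniz_pow, pderiv_X_self]
  simp only [smul_eq_mul, nsmul_eq_mul, mul_one, mul_zero, add_zero, C_mul, map_natCast]
  ring

lemma ev_CX (q : A) (a : K) (n : ℕ) : ev q (C a * X 0 ^ n)
    = C (PowerSeries.derivative ℂ a) * X 0 ^ n * q + C ((n : K) * a) * X 0 ^ (n - 1) * Dx q := by
  rw [ev, du_CX, sum_vars _ _ {0} (vars_CX a n), Finset.sum_singleton, pderiv_CX]
  rfl

lemma Dx_CX (a : K) (n : ℕ) : Dx (C a * X 0 ^ n)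
    = C (PowerSeries.derivative ℂ a) * X 0 ^ (n + 1) + C ((n : K) * a) * X 0 ^ (n - 1) * X 1 := by
  rw [Dx, du_CX, sum_vars _ _ {0} (vars_CX a n), Finset.sum_singleton, pderiv_CX]
  ring


/-! ### The flows -/

/-- the coefficient function of `ε^k` in `flow c d` -/
noncomputable def al (c : ℂ) (d k : ℕ) : K :=
  PowerSeries.C ((d.factorial : ℂ)⁻¹ * (d.choose k : ℂ) * c ^ k) * PowerSeries.X ^ (d - k)

lemma coeff_lin_pow (a b : A) (d k : ℕ) :
    PowerSeries.coeff k ((PowerSeries.C a + PowerSeries.C b * PowerSeries.X) ^ d)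
      = a ^ (d - k) * b ^ k * (d.choose k : A) := by
  rw [add_comm, add_pow, map_sum]
  have h : ∀ m ∈ Finset.range (d + 1), PowerSeries.coeff k ((PowerSeries.C b * PowerSeries.X) ^ m *
      PowerSeries.C a ^ (d - m) * ((d.choose m : ℕ) : AE))
      = if m = k then a ^ (d - k) * b ^ k * (d.choose k : A) else 0 := by
    intro m _
    have e : (PowerSeries.C b * PowerSeries.X) ^ m *
      PowerSeries.C a ^ (d - m) * ((d.choose m : ℕ) : AE)
        = PowerSeries.C (b ^ m * a ^ (d - m) * (d.choose m : A)) * PowerSeries.X ^ m := by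
      rw [mul_pow]
      simp only [map_mul, map_pow, map_natCast]
      ring
    rw [e, PowerSeries.coeff_C_mul, PowerSeries.coeff_X_pow]
    by_cases hm : m = k
    · subst hm
      rw [if_pos rfl, if_pos rfl]
      ring
    · simp [hm, Ne.symm hm]
  rw [Finset.sum_congr rfl h, Finset.sum_ite_eq']
  split_ifs with h1
  · rfl
  · rw [Nat.choose_eq_zero_of_lt (by simpa using h1)]
    simp

lemma coeff_flow (c : ℂ) (d k : ℕ) :
    PowerSeries.coeff k (flow c d) = C (al c d k) * X 0 ^ (k + 1) := by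
  rw [flow, PowerSeries.coeff_C_mul, coeff_lin_pow, al, mul_pow]
  simp only [map_mul, map_pow, map_natCast]
  ring

lemma d_al_zero (c : ℂ) (k : ℕ) : PowerSeries.derivative ℂ (al c 0 k) = 0 := by
  rw [al]; simp

lemma d_al_succ (c : ℂ) (d k : ℕ) :
    PowerSeries.derivative ℂ (al c (d + 1) k) = al c d k := by
  have e : ((d + 1).factorial : ℂ)⁻¹ * ((d + 1).choose k : ℂ) * ((d + 1 - k : ℕ) : ℂ)
      = (d.factorial : ℂ)⁻¹ * (d.choose k : ℂ) := by
    have h2 : (d + 1).choose k * (d + 1 - k) = (d + 1) * d.choose k := by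
      rcases Nat.lt_or_ge (d + 1) k with h | h
      · rw [Nat.choose_eq_zero_of_lt h, Nat.choose_eq_zero_of_lt (by omega)]; simp
      · rcases k with _ | k
        · simp
        · rcases Nat.eq_or_lt_of_le h with h3 | h3
          · have : k = d := by omega
            subst this
            simp
          · have h4 := Nat.choose_succ_right_eq (d + 1) (k + 1)
            have h5 := Nat.add_one_mul_choose_eq d (k + 1)
            rw [← h4, ← h5]
    have h3 : ((d + 1 : ℕ) : ℂ) ≠ 0 := Nat.cast_ne_zero.2 (by omega)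
    have h4 : (d.factorial : ℂ) ≠ 0 := Nat.cast_ne_zero.2 (Nat.factorial_ne_zero d)
    rw [Nat.factorial_succ, mul_assoc, ← Nat.cast_mul, h2]
    push_cast at h3 ⊢
    field_simp
  rw [al, al, Derivation.leibniz, PowerSeries.derivative_C, PowerSeries.derivative_pow,
    PowerSeries.derivative_X]
  simp only [smul_eq_mul, mul_zero, add_zero, mul_one]
  rw [show d + 1 - k - 1 = d - k by omega, ← e,
    show (((d + 1 - k : ℕ) : K)) = PowerSeries.C ((d + 1 - k : ℕ) : ℂ) from (map_natCast _ _).symm]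
  simp only [map_mul]
  ring

lemma k_al_zero (c : ℂ) (k : ℕ) : (k : K) * al c 0 k = 0 := by
  rcases k with _ | k
  · simp
  · rw [al]; simp

lemma k_al_succ (c : ℂ) (d k : ℕ) :
    ((k + 1 : ℕ) : K) * al c (d + 1) (k + 1) = PowerSeries.C c * al c d k := by
  have e : ((k + 1 : ℕ) : ℂ) * (((d + 1).factorial : ℂ)⁻¹ * ((d + 1).choose (k + 1) : ℂ))
      = (d.factorial : ℂ)⁻¹ * (d.choose k : ℂ) := by
    have h1 := Nat.add_one_mul_choose_eq d k
    have h3 : ((d + 1 : ℕ) : ℂ) ≠ 0 := Nat.cast_ne_zero.2 (by omega)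
    have h4 : (d.factorial : ℂ) ≠ 0 := Nat.cast_ne_zero.2 (Nat.factorial_ne_zero d)
    rw [mul_left_comm, ← Nat.cast_mul, mul_comm (k + 1), ← h1, Nat.factorial_succ]
    push_cast at h3 ⊢
    field_simp
  rw [al, al, ← e, Nat.succ_sub_succ,
    show (((k + 1 : ℕ) : K)) = PowerSeries.C ((k + 1 : ℕ) : ℂ) from (map_natCast _ _).symm]
  simp only [map_mul, map_pow]
  ring


lemma ev_flow (c : ℂ) (d e i j : ℕ) :
    ev (PowerSeries.coeff i (flow c d)) (PowerSeries.coeff j (flow c e))
      = C (PowerSeries.derivative ℂ (al c e j) * al c d i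
          + ((j + 1 : ℕ) : K) * al c e j * PowerSeries.derivative ℂ (al c d i)) * X 0 ^ (i + j + 2)
        + C (((i + 1 : ℕ) : K) * ((j + 1 : ℕ) : K) * (al c e j * al c d i)) * X 0 ^ (i + j) * X 1 := by
  rw [coeff_flow, coeff_flow, ev_CX, Dx_CX, Nat.add_sub_cancel, Nat.add_sub_cancel]
  simp only [map_mul, map_add]
  ring

lemma sum_al (c : ℂ) (d e n : ℕ) :
    ∑ x ∈ Finset.HasAntidiagonal.antidiagonal n,
      ((x.1 : K) * al c d x.1) * PowerSeries.derivative ℂ (al c e x.2)
    = ∑ x ∈ Finset.HasAntidiagonal.antidiagonal n,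
      PowerSeries.derivative ℂ (al c d x.1) * ((x.2 : K) * al c e x.2) := by
  rcases d with _ | d
  · simp only [k_al_zero, d_al_zero, zero_mul]
  rcases e with _ | e
  · simp only [k_al_zero, d_al_zero, mul_zero]
  rcases n with _ | n
  · simp
  rw [Finset.Nat.sum_antidiagonal_succ, Finset.Nat.sum_antidiagonal_succ']
  simp only [d_al_succ, k_al_succ, Nat.cast_zero, zero_mul, mul_zero, zero_add]
  refine Finset.sum_congr rfl fun x _ => ?_
  ring

lemma flow_commute (c : ℂ) (d e : ℕ) : evol (flow c d) (flow c e) = evol (flow c e) (flow c d) := by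
  ext1 n
  rw [evol, evol, PowerSeries.coeff_mk, PowerSeries.coeff_mk, ← sub_eq_zero]
  have h1 : ∑ x ∈ Finset.HasAntidiagonal.antidiagonal n,
      ev (PowerSeries.coeff x.1 (flow c e)) (PowerSeries.coeff x.2 (flow c d))
      = ∑ x ∈ Finset.HasAntidiagonal.antidiagonal n,
      ev (PowerSeries.coeff x.2 (flow c e)) (PowerSeries.coeff x.1 (flow c d)) :=
    (Finset.Nat.sum_antidiagonal_swap (n := n) (f := fun x =>
      ev (PowerSeries.coeff x.1 (flow c e)) (PowerSeries.coeff x.2 (flow c d)))).symm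
  rw [h1, ← Finset.sum_sub_distrib]
  have h2 : ∀ x ∈ Finset.HasAntidiagonal.antidiagonal n,
      ev (PowerSeries.coeff x.1 (flow c d)) (PowerSeries.coeff x.2 (flow c e)) -
        ev (PowerSeries.coeff x.2 (flow c e)) (PowerSeries.coeff x.1 (flow c d))
      = C (PowerSeries.derivative ℂ (al c d x.1) * ((x.2 : K) * al c e x.2)
          - ((x.1 : K) * al c d x.1) * PowerSeries.derivative ℂ (al c e x.2)) * X 0 ^ (n + 2) := by
    intro x hx
    rw [ev_flow, ev_flow, ← Finset.HasAntidiagonal.mem_antidiagonal.1 hx]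
    simp only [map_mul, map_add, map_sub, Nat.cast_add, Nat.cast_one, map_natCast, map_one]
    rw [add_comm x.2 x.1]
    ring
  rw [Finset.sum_congr rfl h2, ← Finset.sum_mul, ← map_sum, Finset.sum_sub_distrib, sum_al,
    sub_self, map_zero, zero_mul]

lemma flow_degree (c : ℂ) (d : ℕ) : HasDegree 1 (flow c d) := by
  intro k
  rw [coeff_flow, C_mul_X_pow]
  refine isWeightedHomogeneous_monomial _ _ _ ?_
  rw [Finsupp.weight_single]
  simp

lemma flow_leading (c : ℂ) (d : ℕ) : PowerSeries.coeff 0 (flow c d)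
    = C (PowerSeries.C ((d.factorial : ℂ)⁻¹) * PowerSeries.X ^ d) * X 0 := by
  rw [coeff_flow, al]
  simp

theorem isDeformation_flow (c : ℂ) : IsDeformation (flow c) :=
  ⟨flow_degree c, flow_leading c, flow_commute c⟩

/-- All the coefficients `b_k`, `k ≥ 2`, vanish. -/
theorem b_flow (c : ℂ) (k : ℕ) (hk : 2 ≤ k) : b (flow c) k = 0 := by
  rw [b, coeff_flow, C_mul_X_pow, coeff_monomial, if_neg]
  intro h
  have h1 := DFunLike.congr_fun h 0
  rw [Finsupp.single_eq_same, Finsupp.single_eq_of_ne (by omega)] at h1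
  omega

/-! ### Miura equivalence -/

lemma degree_one (p : A) (h : IsWeightedHomogeneous (fun i : ℕ => i + 1) p 1) :
    ∃ a : K, p = C a * X 0 ^ 1 := by
  refine ⟨coeff (Finsupp.single 0 1) p, ?_⟩
  rw [C_mul_X_pow]
  ext1 m
  rw [coeff_monomial]
  split_ifs with hm
  · rw [hm]
  · by_contra hne
    have hw := h hne
    apply hm
    rw [Finsupp.weight_apply, Finsupp.sum] at hw
    have h0 : ∀ i ∈ m.support, i = 0 ∧ m i = 1 := by
      intro i hi
      have h1 : m i • (i + 1) ≤ 1 := le_trans
        (Finset.single_le_sum (f := fun i => m i • (i + 1)) (fun _ _ => Nat.zero_le _) hi)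
        (le_of_eq hw)
      have h2 : m i ≠ 0 := Finsupp.mem_support_iff.1 hi
      rw [smul_eq_mul] at h1
      have h3 : 1 ≤ m i := Nat.one_le_iff_ne_zero.2 h2
      have h4 : i + 1 ≤ m i * (i + 1) := Nat.le_mul_of_pos_left _ h3
      have h5 : i = 0 := by omega
      subst h5
      omega
    have h6 : m.support ⊆ {0} := fun i hi => by simp [(h0 i hi).1]
    have h7 : m.support = {0} := by
      rcases Finset.subset_singleton_iff.1 h6 with h | h
      · rw [h] at hw; simp at hw
      · exact h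
    ext i
    by_cases hi : i = 0
    · subst hi
      rw [Finsupp.single_eq_same, (h0 0 (by rw [h7]; simp)).2]
    · rw [Finsupp.single_eq_of_ne (by omega)]
      by_contra h8
      exact hi (h0 i (Finsupp.mem_support_iff.2 (Ne.symm h8))).1


lemma iter_zero (D : A → A) (hD : D 0 = 0) (n : ℕ) : D^[n] 0 = 0 := by
  induction n with
  | zero => rfl
  | succ n ih => rw [Function.iterate_succ_apply, hD, ih]

lemma Dx_zero : Dx 0 = 0 := by simp [Dx, du_zero]

lemma ev_u (q : A) : ev q (C PowerSeries.X) = q := by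
  have h := ev_CX q PowerSeries.X 0
  simpa using h

lemma coeff_one_taylor (v : AE) :
    PowerSeries.coeff 1 (taylor v PowerSeries.X) = PowerSeries.coeff 1 v := by
  rw [taylor, PowerSeries.coeff_mk]
  simp [Finset.sum_range_succ]

lemma coeff_zero_taylor (v : AE) (f : K) :
    PowerSeries.coeff 0 (taylor v f) = C f := by
  rw [taylor, PowerSeries.coeff_mk]
  simp

lemma taylor_zero (v : AE) : taylor v 0 = 0 := by
  ext1 n
  rw [taylor, PowerSeries.coeff_mk, map_zero]
  have h : ∀ j, (PowerSeries.derivative ℂ : Derivation ℂ K K)^[j] 0 = 0 := by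
    intro j
    induction j with
    | zero => rfl
    | succ j ih => rw [Function.iterate_succ_apply, map_zero, ih]
  exact Finset.sum_eq_zero fun j _ => by rw [h j, mul_zero, map_zero, zero_mul]

lemma substA_CX (v : AE) (a : K) (n : ℕ) :
    substA v (C a * X 0 ^ (n + 1)) = taylor v a * (DxE v) ^ (n + 1) := by
  classical
  rw [C_mul_X_pow]
  by_cases ha : a = 0
  · subst ha
    rw [monomial_zero, taylor_zero, zero_mul, substA]
    simp
  · rw [substA, support_monomial, if_neg ha, Finset.sum_singleton, coeff_monomial, if_pos rfl,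
      Finsupp.support_single _ (Nat.succ_ne_zero n), Finset.prod_singleton,
      Finsupp.single_eq_same]
    rfl

lemma al_one_zero (c : ℂ) : al c 1 0 = PowerSeries.X := by simp [al]

lemma al_one_one (c : ℂ) : al c 1 1 = PowerSeries.C c := by simp [al]

lemma Dx_u : Dx (C PowerSeries.X) = X 0 := by
  have h := Dx_CX PowerSeries.X 0
  simpa using h

lemma carries_eq {c c' : ℂ} {v : AE} (h : Carries v (flow c) (flow c')) : c = c' := by
  obtain ⟨⟨hdeg, hlead⟩, hc⟩ := h
  obtain ⟨a, ha⟩ := degree_one _ (hdeg 1)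
  have h1 := congrArg (PowerSeries.coeff 1) (hc 1)
  rw [evol, subst, PowerSeries.coeff_mk, PowerSeries.coeff_mk,
    Finset.Nat.sum_antidiagonal_succ, Finset.Nat.sum_antidiagonal_succ] at h1
  simp only [Finset.Nat.antidiagonal_zero, Finset.sum_singleton, zero_add] at h1
  rw [coeff_flow, coeff_flow, coeff_flow, coeff_flow, substA_CX, substA_CX, al_one_zero,
    al_one_zero, al_one_one, al_one_one, hlead, ev_u, ha, ev_CX, Dx_CX, PowerSeries.coeff_mul,
    PowerSeries.coeff_mul, Finset.Nat.sum_antidiagonal_succ] at h1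
  simp only [Finset.Nat.antidiagonal_zero, Finset.sum_singleton, zero_add, pow_one, coeff_one_taylor,
    coeff_zero_taylor, PowerSeries.derivative_X] at h1
  have e0 : PowerSeries.coeff 0 (DxE v) = X 0 := by rw [DxE, PowerSeries.coeff_mk, hlead, Dx_u]
  have e1 : PowerSeries.coeff 1 (DxE v) = C (PowerSeries.derivative ℂ a) * X 0 ^ 2 + C a * X 1 := by
    rw [DxE, PowerSeries.coeff_mk, ha, Dx_CX]
    simp
  have e2 : PowerSeries.coeff 0 (DxE v ^ (1 + 1)) = X 0 ^ 2 := by
    rw [PowerSeries.coeff_zero_eq_constantCoeff, map_pow,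
      ← PowerSeries.coeff_zero_eq_constantCoeff, e0]
  rw [e0, e1, e2, ha] at h1
  simp only [map_one, one_mul, Nat.cast_one, Nat.sub_self, pow_zero, mul_one, pow_one] at h1
  have h2 : (C (PowerSeries.C c) * X 0 ^ 2 : A) = C (PowerSeries.C c') * X 0 ^ 2 := by
    linear_combination h1
  have h3 := congrArg (coeff (Finsupp.single 0 2)) h2
  rw [C_mul_X_pow, C_mul_X_pow, coeff_monomial, coeff_monomial, if_pos rfl, if_pos rfl] at h3
  exact PowerSeries.C_injective h3

/-- **Disproof of Q1.** For `c : ℂ` the flows `u_{t_d} = u_x (u + c ε u_x)^d / d!` form a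
deformation of the Riemann hierarchy with `b_k = 0` for all `k ≥ 2`; for distinct values of `c` they
are not Miura equivalent. -/
theorem result :
    (∀ c : ℂ, IsDeformation (flow c)) ∧
    (∀ (c : ℂ) (k : ℕ), 2 ≤ k → b (flow c) k = 0) ∧
    ∀ c c' : ℂ, c ≠ c' → ¬ MiuraEquivalent (flow c) (flow c') :=
  ⟨isDeformation_flow, b_flow, fun _ _ hne h => h.elim
    (fun ⟨_, hv⟩ => hne (carries_eq hv)) (fun ⟨_, hv⟩ => hne (carries_eq hv).symm)⟩

end Pool.Agent.Results.MP_4b14b2_mp.ContactDeformation
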